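import Pool.Agent.Helper30.UB.St

/-!
Project UB (MP_16cbc0_nt), module CNT: counting in a residue class.
-/

set_option autoImplicit false

namespace Pool.Agent.Helper1.UB

open Polynomial Finset Pool.Agent.Helper15.FC Pool.Agent.Helper30.UB

private lemma quot_deg {F : Type} [Field F] {n : ℕ} {f f0 L c : F[X]} (hf : f.Monic ∧ f.natDegree = n)
    (hf0 : f0.Monic ∧ f0.natDegree = n) (hL : L.Monic) (h : f - f0 = L * c) :
    c.degree < ((n - L.natDegree : ℕ) : WithBot ℕ) := by
  by_cases hc : c = 0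
  · rw [hc, degree_zero]
    exact WithBot.bot_lt_coe _
  · have h1 : (f - f0).degree < (n : WithBot ℕ) := by
      have := degree_sub_lt_left (p := f) (q := f0)
        (by rw [degree_eq_natDegree hf.1.ne_zero, degree_eq_natDegree hf0.1.ne_zero, hf.2, hf0.2])
        hf.1.ne_zero (by rw [hf.1.leadingCoeff, hf0.1.leadingCoeff])
      rwa [degree_eq_natDegree hf.1.ne_zero, hf.2] at this
    have hLc : L * c ≠ 0 := mul_ne_zero hL.ne_zero hc
    rw [h, degree_eq_natDegree hLc, natDegree_mul hL.ne_zero hc] at h1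
    have h2 : L.natDegree + c.natDegree < n := by exact_mod_cast h1
    rw [degree_eq_natDegree hc]
    have h3 : c.natDegree < n - L.natDegree := by omega
    exact_mod_cast h3

theorem hCNT (hL : StLCM) : Pool.Agent.Helper30.UB.StCNT := by
  intro F _ _ n A B h hA hB hh hn
  classical
  have hq : (0 : ℝ) < qr F := by
    have : 0 < Fintype.card F := Fintype.card_pos
    exact_mod_cast this
  have hnn : ∀ g ∈ Dv h, (0 : ℝ) ≤ if g ∣ A ∧ g ∣ B then
      qr F ^ g.natDegree * qr F ^ n / (qr F ^ A.natDegree * qr F ^ B.natDegree) else 0 := by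
    intro g _
    split_ifs
    · positivity
    · exact le_rfl
  by_cases hne : ∃ f0 : F[X], f0 ∈ Mn F n ∧ A ∣ f0 ∧ B ∣ f0 + h
  · obtain ⟨f0, hf0, hA0, hB0⟩ := hne
    obtain ⟨hLm, hLd, G, hGm, hGA, hGB, hdeg⟩ := hL F A B hA hB
    have hGh : G ∣ h := by
      have h1 : G ∣ f0 := hGA.trans hA0
      have h2 : G ∣ f0 + h := hGB.trans hB0
      exact (dvd_add_right h1).1 h2
    have hGD : G ∈ Dv h := (mem_Dv hh).2 ⟨hGm, hGh⟩
    have hsing := Finset.single_le_sum hnn hGD
    rw [if_pos ⟨hGA, hGB⟩] at hsing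
    refine le_trans ?_ hsing
    have hM : (lc A B).natDegree ≤ n := by omega
    -- the injection
    have hdv : ∀ f : {f : F[X] // f ∈ Mn F n ∧ A ∣ f ∧ B ∣ f + h}, lc A B ∣ f.1 - f0 := by
      intro f
      refine (hLd _).2 ⟨dvd_sub f.2.2.1 hA0, ?_⟩
      have : f.1 - f0 = (f.1 + h) - (f0 + h) := by ring
      rw [this]
      exact dvd_sub f.2.2.2 hB0
    choose c hc using hdv
    have hcard : Nat.card {f : F[X] // f ∈ Mn F n ∧ A ∣ f ∧ B ∣ f + h} ≤
        Nat.card {c : F[X] // c ∈ Lw F (n - (lc A B).natDegree)} := by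
      refine Nat.card_le_card_of_injective (fun f => ⟨c f, mem_Lw.2
        (quot_deg (mem_Mn.1 f.2.1) (mem_Mn.1 hf0) hLm (hc f))⟩) ?_
      intro f f' hff
      have h1 : c f = c f' := congrArg Subtype.val hff
      have h2 : f.1 - f0 = f'.1 - f0 := by rw [hc f, hc f', h1]
      exact Subtype.ext (sub_left_injective h2)
    have hcard2 : Nat.card {c : F[X] // c ∈ Lw F (n - (lc A B).natDegree)} =
        Fintype.card F ^ (n - (lc A B).natDegree) := by
      rw [Nat.card_eq_fintype_card, Fintype.card_coe, card_Lw]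
    rw [hcard2] at hcard
    have h3 : (Nat.card {f : F[X] // f ∈ Mn F n ∧ A ∣ f ∧ B ∣ f + h} : ℝ) ≤
        qr F ^ (n - (lc A B).natDegree) := by
      have : (Nat.card {f : F[X] // f ∈ Mn F n ∧ A ∣ f ∧ B ∣ f + h} : ℝ) ≤
          ((Fintype.card F ^ (n - (lc A B).natDegree) : ℕ) : ℝ) := by exact_mod_cast hcard
      rwa [Nat.cast_pow] at this
    refine h3.trans (le_of_eq ?_)
    rw [eq_div_iff (by positivity), ← pow_add, ← pow_add, ← pow_add]
    congr 1
    omega
  · have : Nat.card {f : F[X] // f ∈ Mn F n ∧ A ∣ f ∧ B ∣ f + h} = 0 := by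
      have : IsEmpty {f : F[X] // f ∈ Mn F n ∧ A ∣ f ∧ B ∣ f + h} :=
        ⟨fun f => hne ⟨f.1, f.2⟩⟩
      exact Nat.card_of_isEmpty
    rw [this, Nat.cast_zero]
    exact Finset.sum_nonneg hnn

end Pool.Agent.Helper1.UB
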